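import Pool.Agent.H29.HMF.Stmts

set_option autoImplicit false

open Matrix MeasureTheory

namespace Pool.HMF

theorem ir2_qm (M : Matrix (Fin 2) (Fin 2) ℝ) (x : Fin 2 → ℝ) :
    M.mulVec x 0 ^ 2 + M.mulVec x 1 ^ 2 ≤
      (M 0 0 ^ 2 + M 0 1 ^ 2 + M 1 0 ^ 2 + M 1 1 ^ 2) * (x 0 ^ 2 + x 1 ^ 2) := by
  simp only [Matrix.mulVec, dotProduct, Fin.sum_univ_two]
  nlinarith [sq_nonneg (M 0 0 * x 1 - M 0 1 * x 0), sq_nonneg (M 1 0 * x 1 - M 1 1 * x 0)]

theorem ir2_qk (k : S2) (hk : k.1 * k.1ᵀ = 1) (x : Fin 2 → ℝ) :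
    k.1.mulVec x 0 ^ 2 + k.1.mulVec x 1 ^ 2 = x 0 ^ 2 + x 1 ^ 2 := by
  have hk' : k.1ᵀ * k.1 = 1 := mul_eq_one_comm.mp hk
  have h00 := congrFun (congrFun hk' 0) 0
  have h01 := congrFun (congrFun hk' 0) 1
  have h11 := congrFun (congrFun hk' 1) 1
  simp only [Matrix.mul_apply, Matrix.transpose_apply, Fin.sum_univ_two, Matrix.one_apply_eq] at h00 h11
  simp only [Matrix.mul_apply, Matrix.transpose_apply, Fin.sum_univ_two] at h01
  rw [Matrix.one_apply_ne (by decide)] at h01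
  simp only [Matrix.mulVec, dotProduct, Fin.sum_univ_two]
  linear_combination x 0 ^ 2 * h00 + 2 * x 0 * x 1 * h01 + x 1 ^ 2 * h11

theorem ir2_det (v : ℝ) : (dg v).det = 1 := by
  unfold dg
  rw [Matrix.det_diagonal, Fin.prod_univ_two]
  simp [← Real.exp_add]

theorem ir2_dgmul (v w : ℝ) : dg v * dg w = dg (v + w) := by
  unfold dg
  rw [Matrix.diagonal_mul_diagonal]
  congr 1
  funext i
  fin_cases i
  · simp [Real.exp_add]
  · simp only [Fin.mk_one, Fin.isValue, cons_val_one, cons_val_fin_one]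
    rw [← Real.exp_add]
    congr 1
    ring

theorem ir2_dg0 : dg 0 = 1 := by
  unfold dg
  ext i j
  fin_cases i <;> fin_cases j <;> simp

theorem ir2_thm (h : BASS) : IR2S := by
  obtain ⟨_, _, _, _, _, _, _, hn, hcm, _, _, hc1, hmv⟩ := h
  intro g B hB hfl v hv j
  by_contra hcon
  push Not at hcon
  obtain ⟨R, hR⟩ := hB.isBounded.exists_norm_le
  -- constants
  set c : Fin 2 → Fin 2 → ℝ := fun i => cv g v i with hc
  set F : Fin 2 → ℝ := fun i => (g i).1 0 0 ^ 2 + (g i).1 0 1 ^ 2 + (g i).1 1 0 ^ 2 + (g i).1 1 1 ^ 2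
    with hF
  set K : Fin 2 → ℝ := fun i => F i * (2 * Real.exp R ^ 2) * (c i 0 ^ 2 + c i 1 ^ 2) with hK
  have hF0 : ∀ i, 0 ≤ F i := fun i => by positivity
  have hK0 : ∀ i, 0 ≤ K i := fun i => by
    have := hF0 i
    positivity
  set s : ℝ := K 0 * K 1 with hs
  have hs0 : 0 ≤ s := mul_nonneg (hK0 0) (hK0 1)
  set z : Fin 2 → ℝ := fun i => if j i = 1 then s else -s with hz
  set hh : Fin 2 → S2 := fun i => g i * ⟨dg (z i), ir2_det _⟩ with hhh
  have hmem : hh ∈ fl g := by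
    refine ⟨1, z, Set.mem_univ _, fun i => ⟨1, by simp, ?_⟩⟩
    have e1 : (1 : HM).1 = 1 := rfl
    rw [e1, hc1]
    simp [hhh]
  rw [hfl] at hmem
  obtain ⟨γ, b, hb, hk⟩ := hmem
  set w : Fin 2 → ℤ√2 := (γ⁻¹ : HM).1.mulVec v with hw
  have e2 : γ.1 * (γ⁻¹ : HM).1 = 1 := by
    have : (γ * γ⁻¹ : HM).1 = γ.1 * (γ⁻¹ : HM).1 := Matrix.SpecialLinearGroup.coe_mul _ _
    rw [← this, mul_inv_cancel]
    rfl
  have e3 : (γ⁻¹ : HM).1 * γ.1 = 1 := by
    have : (γ⁻¹ * γ : HM).1 = (γ⁻¹ : HM).1 * γ.1 := Matrix.SpecialLinearGroup.coe_mul _ _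
    rw [← this, inv_mul_cancel]
    rfl
  have hw0 : w ≠ 0 := by
    intro h0
    apply hv
    have : γ.1.mulVec w = v := by
      rw [hw, Matrix.mulVec_mulVec, e2, Matrix.one_mulVec]
    rw [← this, h0, Matrix.mulVec_zero]
  -- the bound
  have key : ∀ i a, em i (w a) ^ 2 ≤ K i * Real.exp (-s) ^ 2 := by
    intro i a
    obtain ⟨k, hk1, hk2⟩ := hk i
    set x : Fin 2 → ℝ := (dg (-z i)).mulVec (c i) with hx
    have hvi : (fun a => em i (v a)) = (hh i).1.mulVec x := by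
      have e4 : (hh i).1 = (g i).1 * dg (z i) := by
        simp [hhh]
      rw [e4, hx, Matrix.mulVec_mulVec, Matrix.mul_assoc, ir2_dgmul, add_neg_cancel, ir2_dg0,
        Matrix.mul_one, hc]
      simp only [cv]
      rw [Matrix.mulVec_mulVec]
      have e5 : (g i).1 * ((g i)⁻¹ : S2).1 = 1 := by
        have : (g i * (g i)⁻¹ : S2).1 = (g i).1 * ((g i)⁻¹ : S2).1 :=
          Matrix.SpecialLinearGroup.coe_mul _ _
        rw [← this, mul_inv_cancel]
        rfl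
      rw [e5, Matrix.one_mulVec]
    have hG : cm i (γ⁻¹ : HM).1 * (cm i γ.1 * (g i).1 * dg (b i) * k.1) =
        (g i).1 * (dg (b i) * k.1) := by
      calc cm i (γ⁻¹ : HM).1 * (cm i γ.1 * (g i).1 * dg (b i) * k.1)
          = (cm i (γ⁻¹ : HM).1 * cm i γ.1) * ((g i).1 * (dg (b i) * k.1)) := by
            simp only [Matrix.mul_assoc]
        _ = (g i).1 * (dg (b i) * k.1) := by rw [← hcm, e3, hc1, Matrix.one_mul]
    have hwi : (fun a => em i (w a)) = (g i).1.mulVec ((dg (b i)).mulVec (k.1.mulVec x)) := by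
      have e6 : (fun a => em i (w a)) = (cm i (γ⁻¹ : HM).1).mulVec (fun a => em i (v a)) := hmv i _ v
      rw [e6, hvi, hk2, Matrix.mulVec_mulVec x, hG, ← Matrix.mulVec_mulVec x, ← Matrix.mulVec_mulVec x]
    have q1 := ir2_qm (g i).1 ((dg (b i)).mulVec (k.1.mulVec x))
    rw [← hwi] at q1
    have q2 := ir2_qm (dg (b i)) (k.1.mulVec x)
    rw [ir2_qk k hk1] at q2
    have hbi : |b i| ≤ R := le_trans (norm_le_pi_norm b i) (hR b hb)
    have q3 : dg (b i) 0 0 ^ 2 + dg (b i) 0 1 ^ 2 + dg (b i) 1 0 ^ 2 + dg (b i) 1 1 ^ 2 ≤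
        2 * Real.exp R ^ 2 := by
      have d00 : dg (b i) 0 0 = Real.exp (b i) := by simp [dg]
      have d01 : dg (b i) 0 1 = 0 := by simp [dg]
      have d10 : dg (b i) 1 0 = 0 := by simp [dg]
      have d11 : dg (b i) 1 1 = Real.exp (-b i) := by simp [dg]
      rw [d00, d01, d10, d11]
      have t1 : Real.exp (b i) ≤ Real.exp R := Real.exp_le_exp.mpr (le_trans (le_abs_self _) hbi)
      have t2 : Real.exp (-b i) ≤ Real.exp R := Real.exp_le_exp.mpr (le_trans (neg_le_abs _) hbi)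
      have t3 := pow_le_pow_left₀ (Real.exp_pos _).le t1 2
      have t4 := pow_le_pow_left₀ (Real.exp_pos _).le t2 2
      nlinarith
    have q4 : x 0 ^ 2 + x 1 ^ 2 = Real.exp (-s) ^ 2 * (c i 0 ^ 2 + c i 1 ^ 2) := by
      have x0 : x 0 = Real.exp (-z i) * c i 0 := by
        simp [hx, dg]
      have x1 : x 1 = Real.exp (z i) * c i 1 := by
        simp [hx, dg]
      have hci : c i (j i) = 0 := hcon i
      rcases Fin.exists_fin_two.mp ⟨j i, rfl⟩ with hj | hj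
      · have hj' : j i = 0 := hj
        have hzi : z i = -s := by simp [hz, hj']
        rw [hj'] at hci
        rw [x0, x1, hzi, hci]
        ring
      · have hj' : j i = 1 := hj
        have hzi : z i = s := by simp [hz, hj']
        rw [hj'] at hci
        rw [x0, x1, hzi, hci]
        ring
    have hxx : 0 ≤ x 0 ^ 2 + x 1 ^ 2 := by positivity
    have q5 : (dg (b i)).mulVec (k.1.mulVec x) 0 ^ 2 + (dg (b i)).mulVec (k.1.mulVec x) 1 ^ 2 ≤
        2 * Real.exp R ^ 2 * (x 0 ^ 2 + x 1 ^ 2) :=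
      le_trans q2 (mul_le_mul_of_nonneg_right q3 hxx)
    have q6 : em i (w 0) ^ 2 + em i (w 1) ^ 2 ≤ K i * Real.exp (-s) ^ 2 := by
      calc em i (w 0) ^ 2 + em i (w 1) ^ 2 ≤ F i * (2 * Real.exp R ^ 2 * (x 0 ^ 2 + x 1 ^ 2)) :=
            le_trans q1 (mul_le_mul_of_nonneg_left q5 (hF0 i))
        _ = K i * Real.exp (-s) ^ 2 := by rw [q4, hK]; ring
    have q7 := sq_nonneg (em i (w 0))
    have q8 := sq_nonneg (em i (w 1))
    fin_cases a
    · simp only [Fin.zero_eta]; linarith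
    · simp only [Fin.mk_one]; linarith
  -- contradiction
  obtain ⟨a, ha⟩ := Function.ne_iff.mp hw0
  have h1 := hn (w a) ha
  have h2 : (1 : ℝ) ≤ (em 0 (w a) * em 1 (w a)) ^ 2 := by
    rw [← sq_abs]
    nlinarith
  have h3 : (em 0 (w a) * em 1 (w a)) ^ 2 ≤ (K 0 * Real.exp (-s) ^ 2) * (K 1 * Real.exp (-s) ^ 2) := by
    rw [mul_pow]
    exact mul_le_mul (key 0 a) (key 1 a) (sq_nonneg _) (mul_nonneg (hK0 0) (by positivity))
  have h4 : (K 0 * Real.exp (-s) ^ 2) * (K 1 * Real.exp (-s) ^ 2) = s * Real.exp (-s) ^ 4 := by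
    rw [hs]; ring
  have h5 : Real.exp (-s) ≤ 1 := Real.exp_le_one_iff.mpr (by linarith)
  have h6 : Real.exp (-s) ^ 4 ≤ Real.exp (-s) := by
    calc Real.exp (-s) ^ 4 ≤ Real.exp (-s) ^ 1 :=
          pow_le_pow_of_le_one (Real.exp_pos _).le h5 (by norm_num)
      _ = Real.exp (-s) := pow_one _
  have h7 : s * Real.exp (-s) < 1 := by
    have e := Real.add_one_le_exp s
    have e' : Real.exp s * Real.exp (-s) = 1 := by rw [← Real.exp_add]; simp
    have hp := Real.exp_pos (-s)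
    nlinarith
  have h8 : s * Real.exp (-s) ^ 4 ≤ s * Real.exp (-s) := mul_le_mul_of_nonneg_left h6 hs0
  linarith

end Pool.HMF
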